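import Mathlib
import Pool.Agent.Helper784HF.Defs
import Pool.Agent.Helper784HF.J1
import Pool.Agent.Helper784HF.J2
import Pool.Agent.Helper784HF.J3
import Pool.Agent.Helper784HF.J4
import Pool.Agent.Helper784HF.J5
import Pool.Agent.Helper784HF.J6
import Pool.Agent.Helper784HF.J7
import Pool.Agent.Helper784HF.J8
import Pool.Agent.Helper784HF.J9
import Pool.Agent.Helper784HF.J10
import Pool.Agent.Helper784HF.Ex

/-!
MP_16db06_lc, Q1: the answer is negative. There is a finitely generated infinite group `Γ` for which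
the nonempty subshifts of `(I^ℕ)^Γ` with hyperfinite orbit equivalence relation form a meager set,
and the set of all subshifts with hyperfinite orbit equivalence relation is not comeager. This holds
for every countable group into which expanders can be mapped with small fibres
(`¬ Helper784WE.Conc Γ`).
-/

set_option autoImplicit false

open TopologicalSpace
open scoped Classical

namespace Pool.Agent.Results.MP_16db06_lc.NotGenericallyHyperfinite

open Pool.Agent.Helper784HF

theorem result :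
    (∀ (Γ : Type) [Group Γ] [Countable Γ], ¬ Pool.Agent.Helper784WE.Conc Γ →
      IsMeagre {Y : Sh Γ | Y.pts.Nonempty ∧ Hyperfinite (orb Y)} ∧
      {Y : Sh Γ | Hyperfinite (orb Y)} ∉ residual (Sh Γ)) ∧
    ∃ (Γ : Type) (_ : Group Γ), Group.FG Γ ∧ Infinite Γ ∧ Countable Γ ∧
      ¬ Pool.Agent.Helper784WE.Conc Γ ∧
      IsMeagre {Y : Sh Γ | Y.pts.Nonempty ∧ Hyperfinite (orb Y)} ∧
      {Y : Sh Γ | Hyperfinite (orb Y)} ∉ residual (Sh Γ) := by
  have h9 : S_dyn := pJ9 pJ6 pJ7 pJ8
  have hg : S_gen := pJ10 pJ5 (pJ4 (pJ3 (pJ2 pJ1))) h9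
  refine ⟨fun Γ _ _ h => hg Γ h, ?_⟩
  obtain ⟨Γ, _, h1, h2, h3, h4⟩ := exists_ncg
  exact ⟨Γ, _, h1, h2, h3, h4, (hg Γ h4).1, (hg Γ h4).2⟩

end Pool.Agent.Results.MP_16db06_lc.NotGenericallyHyperfinite
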